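import Pool.Agent.Y114.RM.Stm5
import Pool.Agent.Y86.RM.Tor
import Pool.Agent.Y809.RM.BC

/-!
# Semisimple parts are in the Lie algebra of a tensor stabilizer
-/

set_option autoImplicit false

namespace Pool.Agent.Y914.RM

open Module TensorProduct Pool.Agent.TH118.SG Pool.Agent.Y114.RM Pool.Agent.Y86.RM

/-- `s` is the scalar `β` on the generalized eigenspace of `x` for `β` -/
def IsSS {K : Type} [Field K] {V : Type} [AddCommGroup V] [Module K V] (x s : End K V) : Prop :=
  ∀ β, ∀ v ∈ x.maxGenEigenspace β, s v = β • v

section nat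

variable {K : Type} [Field K] [CharZero K] [IsAlgClosed K] {E₁ E₂ : Type} [AddCommGroup E₁]
  [Module K E₁] [FiniteDimensional K E₁] [AddCommGroup E₂] [Module K E₂]

theorem exists_ss (x : End K E₁) : ∃ s, IsSS x s := exists_op x fun β => β

theorem ss_nat {f₁ Y₁ : End K E₁} {f₂ Y₂ : End K E₂} {A : E₁ →ₗ[K] E₂}
    (h : ∀ x, A (f₁ x) = f₂ (A x)) (h1 : IsSS f₁ Y₁) (h2 : IsSS f₂ Y₂) (x : E₁) :
    A (Y₁ x) = Y₂ (A x) := by
  have hx : x ∈ ⨆ β, f₁.maxGenEigenspace β := by
    rw [Module.End.iSup_maxGenEigenspace_eq_top f₁]
    exact Submodule.mem_top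
  induction hx using Submodule.iSup_induction' with
  | mem β x hx => rw [h1 β x hx, map_smul, h2 β _ (map_gen h hx)]
  | zero => simp only [map_zero]
  | add x y _ _ hx hy => rw [map_add, map_add, map_add, map_add, hx, hy]

theorem ss_part {x s : End K E₁} (h : IsSS x s) : IsSemisimplePart x s := by
  refine ⟨?_, ?_, ?_⟩
  · rw [eq_top_iff, ← Module.End.iSup_maxGenEigenspace_eq_top x]
    refine iSup_mono fun β v hv => ?_
    rw [Module.End.mem_eigenspace_iff]
    exact h β v hv
  · refine ⟨finrank K E₁, op_ext x fun β v hv => ?_⟩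
    have h1 : ∀ n : ℕ, ∀ v ∈ x.maxGenEigenspace β, ((x - s) ^ n) v =
        ((x - algebraMap K (End K E₁) β) ^ n) v := by
      intro n
      induction n with
      | zero => intro v _; rfl
      | succ n ih =>
        intro v hv
        have h2 : (x - s) v = (x - algebraMap K (End K E₁) β) v := by
          rw [LinearMap.sub_apply, LinearMap.sub_apply, h β v hv, Module.algebraMap_end_apply]
        have h3 : (x - algebraMap K (End K E₁) β) v ∈ x.maxGenEigenspace β := by
          rw [LinearMap.sub_apply, Module.algebraMap_end_apply]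
          refine Submodule.sub_mem _ ?_ (Submodule.smul_mem _ _ hv)
          exact map_gen (f₁ := x) (f₂ := x) (A := x) (fun _ => rfl) hv
        rw [pow_succ, pow_succ, Module.End.mul_apply, Module.End.mul_apply, h2, ih _ h3]
    rw [h1 _ v hv, LinearMap.zero_apply]
    have h4 : v ∈ x.genEigenspace β (finrank K E₁) := by
      rw [← Module.End.maxGenEigenspace_eq_genEigenspace_finrank]
      exact hv
    rw [Module.End.mem_genEigenspace_nat] at h4
    exact h4
  · intro y hy
    apply LinearMap.ext
    intro v
    exact (ss_nat (A := y) (f₁ := x) (f₂ := x) (fun v => (congrArg (fun F : End K E₁ => F v) hy).symm)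
      h h v).symm

end nat

section multi

variable {K : Type} [Field K] {E F : Type} [AddCommGroup E] [Module K E] [AddCommGroup F]
  [Module K F] {m : ℕ}

/-- the derivation attached to `X` -/
noncomputable def dsum (Φ : MultilinearMap K (fun _ : Fin m => E) F) (X : End K E) :
    MultilinearMap K (fun _ : Fin m => E) F :=
  ∑ l, Φ.compLinearMap (fun j => if j = l then X else LinearMap.id)

theorem dsum_apply (Φ : MultilinearMap K (fun _ : Fin m => E) F) (X : End K E) (w : Fin m → E) :
    dsum Φ X w = ∑ l, Φ (Function.update w l (X (w l))) := by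
  unfold dsum
  rw [_root_.sum_apply]
  refine Finset.sum_congr rfl fun l _ => ?_
  rw [MultilinearMap.compLinearMap_apply]
  congr 1
  funext j
  by_cases h : j = l
  · subst h
    rw [if_pos rfl, Function.update_self]
  · rw [if_neg h, Function.update_of_ne h, LinearMap.id_apply]

/-- the vanishing on generalized eigenvectors -/
theorem gen_zero {Φ : MultilinearMap K (fun _ : Fin m => E) F} {X : End K E}
    (hX : ∀ w, ∑ l, Φ (Function.update w l (X (w l))) = 0) (β : Fin m → K)
    (hS : ∑ l, β l ≠ 0) : ∀ (n : ℕ) (w : Fin m → E) (r : Fin m → ℕ),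
    (∀ l, ((X - algebraMap K (End K E) (β l)) ^ r l) (w l) = 0) → ∑ l, r l ≤ n → Φ w = 0 := by
  intro n
  induction n with
  | zero =>
    intro w r hr hsum
    have h0 : ∀ j, w j = 0 := by
      intro j
      have h1 : r j = 0 := by
        have h2 := Finset.single_le_sum (f := r) (fun i _ => Nat.zero_le _) (Finset.mem_univ j)
        omega
      have h2 := hr j
      rw [h1, pow_zero, Module.End.one_apply] at h2
      exact h2
    have hw : w = 0 := funext h0
    have hne : Nonempty (Fin m) := by
      by_contra hem
      rw [not_nonempty_iff] at hem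
      exact hS (by simp)
    obtain ⟨j⟩ := hne
    exact Φ.map_coord_zero j (h0 j)
  | succ n ih =>
    intro w r hr hsum
    have h1 : (∑ l, β l) • Φ w = 0 := by
      have h2 : ∀ l, β l • Φ w = Φ (Function.update w l (X (w l))) -
          Φ (Function.update w l ((X - algebraMap K (End K E) (β l)) (w l))) := by
        intro l
        rw [← MultilinearMap.map_update_sub, LinearMap.sub_apply, sub_sub_cancel,
          Module.algebraMap_end_apply, MultilinearMap.map_update_smul, Function.update_eq_self]
      rw [Finset.sum_smul, Finset.sum_congr rfl fun l _ => h2 l, Finset.sum_sub_distrib, hX,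
        zero_sub, neg_eq_zero]
      refine Finset.sum_eq_zero fun l _ => ?_
      rcases Nat.eq_zero_or_pos (r l) with h3 | h3
      · have h4 := hr l
        rw [h3, pow_zero, Module.End.one_apply] at h4
        rw [h4, map_zero]
        exact Φ.map_update_zero w l
      · refine ih _ (Function.update r l (r l - 1)) ?_ ?_
        · intro j
          by_cases hj : j = l
          · subst hj
            rw [Function.update_self, Function.update_self, ← Module.End.mul_apply, ← pow_succ,
              Nat.sub_add_cancel h3]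
            exact hr j
          · rw [Function.update_of_ne hj, Function.update_of_ne hj]
            exact hr j
        · rw [Finset.sum_update_of_mem (Finset.mem_univ l)]
          have h5 := Finset.add_sum_erase Finset.univ r (Finset.mem_univ l)
          rw [← Finset.sdiff_singleton_eq_erase] at h5
          omega
    exact (smul_eq_zero.1 h1).resolve_left hS

end multi

section mainss

variable {C : Type} [Field C] [CharZero C] [IsAlgClosed C] {E F : Type} [AddCommGroup E] [Module C E]
  [FiniteDimensional C E] [AddCommGroup F] [Module C F] {m : ℕ}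

/-- the semisimple part kills what `X` kills -/
theorem dsum_ss {Φ : MultilinearMap C (fun _ : Fin m => E) F} {X Z : End C E}
    (hX : ∀ w, ∑ l, Φ (Function.update w l (X (w l))) = 0) (hZ : IsSS X Z) (w : Fin m → E) :
    ∑ l, Φ (Function.update w l (Z (w l))) = 0 := by
  classical
  let b : ∀ β : C, Basis (Fin (finrank C (X.maxGenEigenspace β))) C (X.maxGenEigenspace β) :=
    fun β => Module.finBasis C _
  let B := (gen_internal X).collectedBasis b
  have hB : ∀ r, B r ∈ X.maxGenEigenspace r.1 := fun r =>
    (gen_internal X).collectedBasis_mem b r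
  have h0 : dsum Φ Z = 0 := by
    refine Basis.ext_multilinear (fun _ => B) fun r => ?_
    rw [dsum_apply, _root_.zero_apply]
    have h3 : ∀ j, Φ (Function.update (fun j => B (r j)) j (Z (B (r j)))) =
        (r j).1 • Φ fun j => B (r j) := by
      intro j
      rw [hZ _ _ (hB (r j)), MultilinearMap.map_update_smul, Function.update_eq_self]
    rw [Finset.sum_congr rfl fun j _ => h3 j, ← Finset.sum_smul]
    by_cases hS : ∑ j, (r j).1 = 0
    · rw [hS, zero_smul]
    · have h4 : ∀ l, ∃ n : ℕ, ((X - algebraMap C (End C E) (r l).1) ^ n) (B (r l)) = 0 :=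
        fun l => mem_gen.1 (hB (r l))
      choose n hn using h4
      rw [gen_zero hX (fun l => (r l).1) hS (∑ l, n l) (fun j => B (r j)) n hn le_rfl, smul_zero]
  rw [← dsum_apply, h0, _root_.zero_apply]

end mainss

section main

variable {k : Type} [Field k] [CharZero k] {C : Type} [Field C] [CharZero C] [IsAlgClosed C]
  [Algebra k C] {U : Type} [AddCommGroup U] [Module k U] [FiniteDimensional k U]

omit [CharZero k] [CharZero C] [IsAlgClosed C] in
theorem bcm_kill {m : ℕ} {ν : Type} [Fintype ν] [DecidableEq ν] (b : Basis ν k U)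
    (φ : MultilinearMap k (fun _ : Fin m => U) k) {L : Submodule k (End k U)}
    (hφ : ∀ A ∈ L, ∀ v, ∑ l, φ (Function.update v l (A (v l))) = 0) {X : End C (C ⊗[k] U)}
    (hX : X ∈ bcS C L) (w : Fin m → C ⊗[k] U) :
    ∑ l, Pool.Agent.H204R3.SP.bcm (Ω := C) b φ (Function.update w l (X (w l))) = 0 := by
  revert w
  refine Submodule.span_induction (p := fun X _ => ∀ w : Fin m → C ⊗[k] U,
    ∑ l, Pool.Agent.H204R3.SP.bcm (Ω := C) b φ (Function.update w l (X (w l))) = 0)
    ?_ ?_ ?_ ?_ hX
  · rintro _ ⟨A, hA, rfl⟩ w
    have h0 : dsum (Pool.Agent.H204R3.SP.bcm (Ω := C) b φ) (A.baseChange C) = 0 := by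
      refine Basis.ext_multilinear (fun _ => b.baseChange C) fun J => ?_
      rw [dsum_apply, _root_.zero_apply]
      have h1 : ∀ l, Pool.Agent.H204R3.SP.bcm (Ω := C) b φ
          (Function.update (fun j => b.baseChange C (J j)) l
            ((A.baseChange C) (b.baseChange C (J l)))) =
          algebraMap k C (φ (Function.update (fun j => b (J j)) l (A (b (J l))))) := by
        intro l
        rw [← Pool.Agent.H204R3.SP.bcm_one (Ω := C) b φ]
        congr 1
        funext j
        by_cases h : j = l
        · subst h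
          rw [Function.update_self, Function.update_self, Basis.baseChange_apply,
            LinearMap.baseChange_tmul]
        · rw [Function.update_of_ne h, Function.update_of_ne h, Basis.baseChange_apply]
      rw [Finset.sum_congr rfl fun l _ => h1 l, ← map_sum, hφ A hA fun j => b (J j), map_zero]
    rw [← dsum_apply, h0, _root_.zero_apply]
  · intro w
    refine Finset.sum_eq_zero fun l _ => ?_
    rw [LinearMap.zero_apply, MultilinearMap.map_update_zero]
  · intro x y _ _ hx hy w
    have h1 : ∀ l, Pool.Agent.H204R3.SP.bcm (Ω := C) b φ (Function.update w l ((x + y) (w l))) =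
        Pool.Agent.H204R3.SP.bcm (Ω := C) b φ (Function.update w l (x (w l))) +
        Pool.Agent.H204R3.SP.bcm (Ω := C) b φ (Function.update w l (y (w l))) := by
      intro l
      rw [LinearMap.add_apply, MultilinearMap.map_update_add]
    rw [Finset.sum_congr rfl fun l _ => h1 l, Finset.sum_add_distrib, hx, hy, add_zero]
  · intro c x _ hx w
    have h1 : ∀ l, Pool.Agent.H204R3.SP.bcm (Ω := C) b φ (Function.update w l ((c • x) (w l))) =
        c • Pool.Agent.H204R3.SP.bcm (Ω := C) b φ (Function.update w l (x (w l))) := by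
      intro l
      rw [LinearMap.smul_apply, MultilinearMap.map_update_smul]
    rw [Finset.sum_congr rfl fun l _ => h1 l, ← Finset.smul_sum, hx, smul_zero]

/-- the components of the semisimple part kill the tensors killed by `L` -/
theorem claimL {L : Submodule k (End k U)} {X Z : End C (C ⊗[k] U)} (hX : X ∈ bcS C L)
    (hZ : IsSS X Z) (π : C →ₗ[k] k) {m : ℕ} (φ : MultilinearMap k (fun _ : Fin m => U) k)
    (hφ : ∀ A ∈ L, ∀ v, ∑ l, φ (Function.update v l (A (v l))) = 0) (v : Fin m → U) :
    ∑ l, φ (Function.update v l (pM π Z (v l))) = 0 := by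
  classical
  let b := Module.finBasis k U
  have key := dsum_ss (bcm_kill b φ hφ hX) hZ (fun l => (1 : C) ⊗ₜ[k] v l)
  have key2 := congrArg π key
  rw [map_zero, map_sum] at key2
  rw [← key2]
  refine Finset.sum_congr rfl fun l _ => ?_
  rw [pM_apply, ← pi_bcm b φ π v l]

end main

section lieL

variable {k : Type} [Field k] {V : Type} [AddCommGroup V] [Module k V]

variable (k V) in
/-- the map `lie`, as a linear map -/
noncomputable def lieL : End k V →ₗ[k] End k (V × Dual k V) where
  toFun := lie
  map_add' X Y := by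
    apply LinearMap.ext
    rintro ⟨x, ξ⟩
    refine Prod.ext rfl ?_
    apply LinearMap.ext
    intro y
    change -(ξ ((X + Y) y)) = -(ξ (X y)) + -(ξ (Y y))
    rw [LinearMap.add_apply, map_add, neg_add]
  map_smul' c X := by
    apply LinearMap.ext
    rintro ⟨x, ξ⟩
    refine Prod.ext rfl ?_
    apply LinearMap.ext
    intro y
    change -(ξ ((c • X) y)) = c • -(ξ (X y))
    rw [LinearMap.smul_apply, map_smul, smul_neg]

theorem lieL_apply (X : End k V) : lieL k V X = lie X := rfl

variable {C : Type} [Field C] [Algebra k C]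

/-- the lift of an element of the base change -/
theorem lift {G : Submodule k (End k V)} {x : End C (C ⊗[k] V)} (hx : x ∈ bcS C G) :
    ∃ (X : End C (C ⊗[k] (V × Dual k V))) (X' : End C (C ⊗[k] (Dual k V))),
      X ∈ bcS C (G.map (lieL k V)) ∧
      (∀ v, (LinearMap.inl k V (Dual k V)).baseChange C (x v) =
        X ((LinearMap.inl k V (Dual k V)).baseChange C v)) ∧
      (∀ v, (LinearMap.inr k V (Dual k V)).baseChange C (X' v) =
        X ((LinearMap.inr k V (Dual k V)).baseChange C v)) := by
  refine Submodule.span_induction (p := fun x _ =>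
    ∃ (X : End C (C ⊗[k] (V × Dual k V))) (X' : End C (C ⊗[k] (Dual k V))),
      X ∈ bcS C (G.map (lieL k V)) ∧
      (∀ v, (LinearMap.inl k V (Dual k V)).baseChange C (x v) =
        X ((LinearMap.inl k V (Dual k V)).baseChange C v)) ∧
      (∀ v, (LinearMap.inr k V (Dual k V)).baseChange C (X' v) =
        X ((LinearMap.inr k V (Dual k V)).baseChange C v))) ?_ ?_ ?_ ?_ hx
  · rintro _ ⟨Y, hY, rfl⟩
    refine ⟨(lie Y).baseChange C, (-Y.dualMap).baseChange C,
      Submodule.subset_span ⟨lie Y, ⟨Y, hY, rfl⟩, rfl⟩, ?_, ?_⟩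
    · intro x
      induction x using TensorProduct.induction_on with
      | zero => simp only [map_zero]
      | tmul c v =>
        simp only [LinearMap.baseChange_tmul]
        congr 1
        unfold lie
        refine Prod.ext rfl ?_
        change (0 : Dual k V) = (-Y.dualMap) 0
        rw [map_zero]
      | add x y hx hy => simp only [map_add, hx, hy]
    · intro x
      induction x using TensorProduct.induction_on with
      | zero => simp only [map_zero]
      | tmul c v =>
        simp only [LinearMap.baseChange_tmul]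
        congr 1
        unfold lie
        refine Prod.ext ?_ rfl
        change (0 : V) = Y 0
        rw [map_zero]
      | add x y hx hy => simp only [map_add, hx, hy]
  · exact ⟨0, 0, Submodule.zero_mem _, fun v => by simp only [LinearMap.zero_apply, map_zero],
      fun v => by simp only [LinearMap.zero_apply, map_zero]⟩
  · rintro x y _ _ ⟨X1, X1', h1, h2, h3⟩ ⟨X2, X2', h4, h5, h6⟩
    exact ⟨X1 + X2, X1' + X2', Submodule.add_mem _ h1 h4,
      fun v => by rw [LinearMap.add_apply, map_add, h2, h5, LinearMap.add_apply],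
      fun v => by rw [LinearMap.add_apply, map_add, h3, h6, LinearMap.add_apply]⟩
  · rintro c x _ ⟨X1, X1', h1, h2, h3⟩
    exact ⟨c • X1, c • X1', Submodule.smul_mem _ _ h1,
      fun v => by rw [LinearMap.smul_apply, map_smul, h2, LinearMap.smul_apply],
      fun v => by rw [LinearMap.smul_apply, map_smul, h3, LinearMap.smul_apply]⟩

end lieL

/-- task JORD -/
theorem jord : S_JORD := by
  intro k _ _ C _ _ _ _ V _ _ _ G hG x hx
  classical
  obtain ⟨s, hs⟩ := exists_ss x
  refine ⟨s, ?_, ss_part hs⟩
  rw [(Pool.Agent.Y809.RM.BC.bc k C V G).1]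
  intro π
  apply hG
  intro m φ hφ
  obtain ⟨X, X', hXm, hinl, hinr⟩ := lift hx
  obtain ⟨Z, hZ⟩ := exists_ss X
  obtain ⟨Y', hY'⟩ := exists_ss X'
  have e1 : ∀ x : V, pM π Z (x, 0) = (pM π s x, 0) := by
    intro x
    have h1 := ss_nat hinl hs hZ ((1 : C) ⊗ₜ[k] x)
    have h2 := congrArg (pv π) h1
    rw [pv_nat, LinearMap.baseChange_tmul] at h2
    exact h2.symm
  have e2 : ∀ ξ : Dual k V, pM π Z (0, ξ) = (0, pM π Y' ξ) := by
    intro ξ
    have h1 := ss_nat hinr hY' hZ ((1 : C) ⊗ₜ[k] ξ)
    have h2 := congrArg (pv π) h1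
    rw [pv_nat, LinearMap.baseChange_tmul] at h2
    exact h2.symm
  have hev : ∀ A ∈ G.map (lieL k V), ∀ v : Fin 2 → V × Dual k V,
      ∑ l, ev2 k V (Function.update v l (A (v l))) = 0 := by
    rintro _ ⟨Y, _, rfl⟩ v
    rw [Fin.sum_univ_two]
    simp only [ev2_apply]
    rw [Function.update_self, Function.update_self, Function.update_of_ne (by decide),
      Function.update_of_ne (by decide)]
    change (v 1).2 (Y (v 0).1) + -((v 1).2 (Y (v 0).1)) = 0
    rw [add_neg_cancel]
  have e3 : ∀ (x : V) (ξ : Dual k V), (pM π Y' ξ) x = - ξ (pM π s x) := by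
    intro x ξ
    have h1 := claimL hXm hZ π (ev2 k V) hev ![(x, 0), (0, ξ)]
    rw [Fin.sum_univ_two] at h1
    simp only [ev2_apply] at h1
    have h2 : (Function.update ![((x, 0) : V × Dual k V), (0, ξ)] 0
        (pM π Z (![((x, 0) : V × Dual k V), (0, ξ)] 0))) 1 = (0, ξ) := by
      rw [Function.update_of_ne (by decide)]
      rfl
    have h3 : (Function.update ![((x, 0) : V × Dual k V), (0, ξ)] 0
        (pM π Z (![((x, 0) : V × Dual k V), (0, ξ)] 0))) 0 = (pM π s x, 0) := by
      rw [Function.update_self]
      exact e1 x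
    have h4 : (Function.update ![((x, 0) : V × Dual k V), (0, ξ)] 1
        (pM π Z (![((x, 0) : V × Dual k V), (0, ξ)] 1))) 1 = (0, pM π Y' ξ) := by
      rw [Function.update_self]
      exact e2 ξ
    have h5 : (Function.update ![((x, 0) : V × Dual k V), (0, ξ)] 1
        (pM π Z (![((x, 0) : V × Dual k V), (0, ξ)] 1))) 0 = (x, 0) := by
      rw [Function.update_of_ne (by decide)]
      rfl
    rw [h2, h3, h4, h5] at h1
    exact eq_neg_of_add_eq_zero_right h1
  have e4 : pM π Z = lie (pM π s) := by
    apply LinearMap.ext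
    rintro ⟨x, ξ⟩
    have h1 : ((x, ξ) : V × Dual k V) = (x, 0) + (0, ξ) := by simp
    rw [h1, map_add, e1, e2, ← h1]
    unfold lie
    refine Prod.ext ?_ ?_
    · change pM π s x + 0 = pM π s x
      rw [add_zero]
    · apply LinearMap.ext
      intro y
      change ((0 : Dual k V) + pM π Y' ξ) y = (-(pM π s).dualMap) ξ y
      rw [zero_add, e3]
      rfl
  intro v
  rw [← e4]
  refine claimL hXm hZ π φ ?_ v
  rintro _ ⟨Y, hY, rfl⟩ v
  exact hφ Y hY v

end Pool.Agent.Y914.RM
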